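import Pool.Agent.Helper80.SI.StN

set_option autoImplicit false
set_option linter.unusedSectionVars false

namespace Pool.Agent.Helper8.SI

open Pool.Agent.Helper99.SI Pool.Agent.Helper80.SI Filter Topology

section

variable {n : ℕ} {L : Type} [Ring L] [Algebra ℂ L] [StarRing L] [StarModule ℂ L] [Nontrivial L]

omit [StarModule ℂ L] [Nontrivial L] in
theorem w_nil (D : Sys n L) : D.w [] = 1 := by
  simp [Sys.w, wd]

theorem gp_w (h2 : StA2) (D : Sys n L) (l : ℤ) (μ : W n) :
    D.g.p l (D.w μ) = if l = (μ.length : ℤ) then D.w μ else 0 := by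
  have := h2 n L D l μ []
  simpa [w_nil] using this

theorem gp_sw (h2 : StA2) (D : Sys n L) (l : ℤ) (μ : W n) :
    D.g.p l (star (D.w μ)) = if l = -(μ.length : ℤ) then star (D.w μ) else 0 := by
  have := h2 n L D l [] μ
  simpa [w_nil] using this

theorem piT_a (h1 : StA0) (D : Sys n L) (m : MData n L) (ν : W n) :
    m.piT D 1 (Sum.inl (Sum.inl ν)) = if m.M ≤ ν.length then D.w ν else 0 := by
  have h := (h1 L D.b).2.2.2.2.1 (D.w ν)
  simp [MData.piT, h]

omit [StarModule ℂ L] [Nontrivial L] in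
theorem piT_b (D : Sys n L) (m : MData n L) (ν : W n) :
    m.piT D 1 (Sum.inl (Sum.inr ν)) = if m.M ≤ ν.length then star (D.w ν) else 0 := rfl

omit [StarModule ℂ L] [Nontrivial L] in
theorem exK (D : Sys n L) (m : MData n L) : ∃ K : ℕ, m.M ≤ K ∧ ∀ (a : Fin m.r) (l : ℤ),
    (K : ℤ) < |l| → D.g.p l (m.piT D 1 (Sum.inr a)) = 0 := by
  have hf : (⋃ a : Fin m.r, {j : ℤ | D.g.p j (m.piT D 1 (Sum.inr a)) ≠ 0}).Finite :=
    Set.finite_iUnion fun a => D.g.fin _
  obtain ⟨B, hB⟩ := (hf.image fun j : ℤ => j.natAbs).bddAbove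
  refine ⟨max m.M B, le_max_left _ _, fun a l hl => ?_⟩
  by_contra h
  have h1 : l.natAbs ≤ B := hB ⟨l, Set.mem_iUnion.2 ⟨a, h⟩, rfl⟩
  have h2 : l.natAbs ≤ max m.M B := h1.trans (le_max_right _ _)
  have h3 : |l| ≤ ((max m.M B : ℕ) : ℤ) := by
    rw [Int.abs_eq_natAbs]
    exact_mod_cast h2
  exact absurd hl (not_lt.2 h3)

/-- Dummies vanish. -/
theorem dummy (D : Sys n L) (X0 : Set L) (m : MData n L) (z : Idx n m.r → ℂ)
    (hm : IsModel D X0 m) (hk : m.IsKer 1 1 z) (ν : W n) (hν : ν.length < m.M) :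
    z (Sum.inl (Sum.inl ν)) = 0 ∧ z (Sum.inl (Sum.inr ν)) = 0 := by
  have key : ∀ i, (∀ j i', m.F j i' i = 0) → z i = 0 := by
    intro i hi
    rw [hk i]
    have : ∀ i', m.Fc 1 i' i * z i' = 0 := by
      intro i'
      have : m.Fc 1 i' i = 0 := by
        unfold MData.Fc
        rw [Finsupp.finset_sum_apply]
        refine Finset.sum_eq_zero fun j _ => ?_
        rw [Finsupp.smul_apply, hi, smul_zero]
      rw [this, zero_mul]
    simp [this]
  exact ⟨key _ fun j i' => (hm.dum2 j ν hν i').1, key _ fun j i' => (hm.dum2 j ν hν i').2⟩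

theorem long_a (h1 : StA0) (h2 : StA2) (h3 : StA3) (D : Sys n L) (m : MData n L)
    (z : Idx n m.r → ℂ) (hz : ∀ l : ℤ, comp D m z l = 0) (K : ℕ) (hK : m.M ≤ K)
    (hK2 : ∀ (a : Fin m.r) (l : ℤ), (K : ℤ) < |l| → D.g.p l (m.piT D 1 (Sum.inr a)) = 0)
    (ν : W n) (hν : K < ν.length) : z (Sum.inl (Sum.inl ν)) = 0 := by
  classical
  have hfin : {μ : W n | μ.length = ν.length}.Finite := List.finite_length_eq (Fin n) ν.length
  set T : Finset (W n) := hfin.toFinset with hT
  have hmT : ∀ μ, μ ∈ T ↔ μ.length = ν.length := by intro μ; simp [hT]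
  have hc := hz (ν.length : ℤ)
  unfold comp at hc
  have hinj : Function.Injective fun μ : W n => (Sum.inl (Sum.inl μ) : Idx n m.r) := by
    intro a b h
    simpa using h
  have hs : (Function.support fun i : Idx n m.r => z i • D.g.p (ν.length : ℤ) (m.piT D 1 i)) ⊆
      ((T.image fun μ : W n => (Sum.inl (Sum.inl μ) : Idx n m.r) : Finset _) : Set _) := by
    intro i hi
    rw [Function.mem_support] at hi
    rcases i with (μ | μ) | a
    · rw [piT_a h1] at hi
      split_ifs at hi with hM
      · rw [gp_w h2] at hi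
        split_ifs at hi with hl
        · simp only [Finset.coe_image, Set.mem_image, Finset.mem_coe]
          exact ⟨μ, (hmT μ).2 (by exact_mod_cast hl.symm), rfl⟩
        · exact absurd (smul_zero _) hi
      · exact absurd (by rw [map_zero, smul_zero]) hi
    · exfalso
      rw [piT_b] at hi
      split_ifs at hi with hM
      · rw [gp_sw h2] at hi
        split_ifs at hi with hl
        · omega
        · exact absurd (smul_zero _) hi
      · exact absurd (by rw [map_zero, smul_zero]) hi
    · exfalso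
      apply hi
      change z (Sum.inr a) • D.g.p (ν.length : ℤ) (m.piT D 1 (Sum.inr a)) = 0
      rw [hK2 a _ (by rw [abs_of_nonneg (by positivity)]; exact_mod_cast hν), smul_zero]
  rw [finsum_eq_sum_of_support_subset _ hs, Finset.sum_image fun a _ b _ h => hinj h] at hc
  have hc2 : ∑ μ ∈ T, z (Sum.inl (Sum.inl μ)) • D.w μ = 0 := by
    rw [← hc]
    refine Finset.sum_congr rfl fun μ hμ => ?_
    have hl := (hmT μ).1 hμ
    rw [piT_a h1, if_pos (by omega), gp_w h2, if_pos (by rw [hl])]
  exact linearIndependent_iff'.1 (h3 n L D).1 T (fun μ => z (Sum.inl (Sum.inl μ))) hc2 ν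
    ((hmT ν).2 rfl)

theorem long_b (h2 : StA2) (h1 : StA0) (h3 : StA3) (D : Sys n L) (m : MData n L)
    (z : Idx n m.r → ℂ) (hz : ∀ l : ℤ, comp D m z l = 0) (K : ℕ) (hK : m.M ≤ K)
    (hK2 : ∀ (a : Fin m.r) (l : ℤ), (K : ℤ) < |l| → D.g.p l (m.piT D 1 (Sum.inr a)) = 0)
    (ν : W n) (hν : K < ν.length) : z (Sum.inl (Sum.inr ν)) = 0 := by
  classical
  have hfin : {μ : W n | μ.length = ν.length}.Finite := List.finite_length_eq (Fin n) ν.length
  set T : Finset (W n) := hfin.toFinset with hT
  have hmT : ∀ μ, μ ∈ T ↔ μ.length = ν.length := by intro μ; simp [hT]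
  have hc := hz (-(ν.length : ℤ))
  unfold comp at hc
  have hinj : Function.Injective fun μ : W n => (Sum.inl (Sum.inr μ) : Idx n m.r) := by
    intro a b h
    simpa using h
  have hs : (Function.support fun i : Idx n m.r => z i • D.g.p (-(ν.length : ℤ)) (m.piT D 1 i)) ⊆
      ((T.image fun μ : W n => (Sum.inl (Sum.inr μ) : Idx n m.r) : Finset _) : Set _) := by
    intro i hi
    rw [Function.mem_support] at hi
    rcases i with (μ | μ) | a
    · exfalso
      rw [piT_a h1] at hi
      split_ifs at hi with hM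
      · rw [gp_w h2] at hi
        split_ifs at hi with hl
        · omega
        · exact absurd (smul_zero _) hi
      · exact absurd (by rw [map_zero, smul_zero]) hi
    · rw [piT_b] at hi
      split_ifs at hi with hM
      · rw [gp_sw h2] at hi
        split_ifs at hi with hl
        · simp only [Finset.coe_image, Set.mem_image, Finset.mem_coe]
          exact ⟨μ, (hmT μ).2 (by omega), rfl⟩
        · exact absurd (smul_zero _) hi
      · exact absurd (by rw [map_zero, smul_zero]) hi
    · exfalso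
      apply hi
      change z (Sum.inr a) • D.g.p (-(ν.length : ℤ)) (m.piT D 1 (Sum.inr a)) = 0
      rw [hK2 a _ (by rw [abs_neg, abs_of_nonneg (by positivity)]; exact_mod_cast hν), smul_zero]
  rw [finsum_eq_sum_of_support_subset _ hs, Finset.sum_image fun a _ b _ h => hinj h] at hc
  have hc2 : ∑ μ ∈ T, z (Sum.inl (Sum.inr μ)) • star (D.w μ) = 0 := by
    rw [← hc]
    refine Finset.sum_congr rfl fun μ hμ => ?_
    have hl := (hmT μ).1 hμ
    rw [piT_b, if_pos (by omega), gp_sw h2, if_pos (by rw [hl])]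
  have hc3 : ∑ μ ∈ T, star (z (Sum.inl (Sum.inr μ))) • D.w μ = 0 := by
    have := congrArg star hc2
    rw [star_sum, star_zero] at this
    rw [← this]
    refine Finset.sum_congr rfl fun μ _ => ?_
    rw [star_smul, star_star]
  have h := linearIndependent_iff'.1 (h3 n L D).1 T (fun μ => star (z (Sum.inl (Sum.inr μ)))) hc3 ν
    ((hmT ν).2 rfl)
  exact star_eq_zero.1 h

end

theorem hN18 (h1 : StA0) (h2 : StA2) (h3 : StA3) : StN18 := by
  intro n L _ _ _ _ _ D X0 m z hm hk hz
  obtain ⟨K, hK, hK2⟩ := exK D m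
  have hlong : ∀ i : Idx n m.r, K < ilen i → z i = 0 := by
    rintro ((ν | ν) | a) hi
    · exact long_a h1 h2 h3 D m z hz K hK hK2 ν hi
    · exact long_b h2 h1 h3 D m z hz K hK hK2 ν hi
    · exact absurd hi (Nat.not_lt_zero _)
  have hsupp : (Function.support z).Finite := by
    refine (fin_ilen (n := n) (r := m.r) K).subset fun i hi => ?_
    by_contra h
    exact hi (hlong i (not_le.1 h))
  set zf : Idx n m.r →₀ ℂ := Finsupp.ofSupportFinite z hsupp with hzf
  have hzv : ∀ i, zf i = z i := fun i => rfl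
  have hfs : (Function.support z) ⊆ (zf.support : Set (Idx n m.r)) := by
    intro i hi
    rw [Finset.mem_coe, Finsupp.mem_support_iff]
    exact hi
  have hpi : m.piV D 1 zf = 0 := by
    rw [← D.g.sum (m.piV D 1 zf)]
    have : ∀ j : ℤ, D.g.p j (m.piV D 1 zf) = 0 := by
      intro j
      rw [← hz j]
      unfold comp
      rw [MData.piV, Finsupp.linearCombination_apply, Finsupp.sum, map_sum]
      rw [finsum_eq_sum_of_support_subset (s := zf.support)]
      · refine Finset.sum_congr rfl fun i _ => ?_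
        rw [map_smul, hzv]
      · refine subset_trans ?_ hfs
        intro i hi h0
        apply hi
        change z i • D.g.p j (m.piT D 1 i) = 0
        rw [h0, zero_smul]
    simp [this]
  have hF : m.Fl 1 zf = zf := by
    ext i
    rw [MData.Fl, Finsupp.linearCombination_apply, Finsupp.sum, Finsupp.finset_sum_apply, hzv,
      hk i, Complex.ofReal_one, one_mul]
    rw [finsum_eq_sum_of_support_subset (s := zf.support)]
    · refine Finset.sum_congr rfl fun i' _ => ?_
      rw [Finsupp.smul_apply, smul_eq_mul, mul_comm, hzv]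
    · refine subset_trans ?_ hfs
      intro i' hi h0
      apply hi
      change m.Fc 1 i' i * z i' = 0
      rw [h0, mul_zero]
  have hFk : ∀ k : ℕ, (m.Fl 1 ^ k) zf = zf := by
    intro k
    induction k with
    | zero => simp
    | succ k ih => rw [pow_succ, Module.End.mul_apply, hF, ih]
  obtain ⟨k, hk0⟩ := hm.nil 1 one_pos zf hpi
  rw [hFk k] at hk0
  funext i
  rw [← hzv i, hk0]
  rfl

end Pool.Agent.Helper8.SI
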